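import Pool.Agent.Helper8.UL.Spec

/-! UL parts COMBA and COMBB. -/

open Set

namespace Pool.UL.H54

open Classical

theorem run_append {L L' L'' : List (ℕ × ℕ)} {es fs : List Ev} (h : Run L es L')
    (h' : Run L' fs L'') : Run L (es ++ fs) L'' := by
  induction h with
  | nil L => exact h'
  | swap P A B S _ ih => exact Run.swap P A B S (ih h')
  | vert P I v O S _ ih => exact Run.vert P I v O S (ih h')

theorem run_frame {L L' : List (ℕ × ℕ)} {es : List Ev} (h : Run L es L') (Q R : List (ℕ × ℕ)) :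
    Run (Q ++ L ++ R) es (Q ++ L' ++ R) := by
  induction h with
  | nil L => exact Run.nil _
  | swap P A B S _ ih =>
    have e1 : Q ++ (P ++ A ++ B ++ S) ++ R = (Q ++ P) ++ A ++ B ++ (S ++ R) := by simp
    have e2 : Q ++ (P ++ B ++ A ++ S) ++ R = (Q ++ P) ++ B ++ A ++ (S ++ R) := by simp
    rw [e1]
    rw [e2] at ih
    exact Run.swap _ _ _ _ ih
  | vert P I v O S _ ih =>
    have e1 : Q ++ (P ++ I ++ S) ++ R = (Q ++ P) ++ I ++ (S ++ R) := by simp
    have e2 : Q ++ (P ++ O ++ S) ++ R = (Q ++ P) ++ O ++ (S ++ R) := by simp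
    rw [e1]
    rw [e2] at ih
    exact Run.vert _ _ _ _ _ ih

theorem run_cast {L L' M M' : List (ℕ × ℕ)} {es : List Ev} (h : Run L es L') (e : L = M)
    (e' : L' = M') : Run M es M' := by
  subst e e'
  exact h

/-- the edge `a b`, if there is one -/
noncomputable def ed (E : ℕ → ℕ → Prop) (a b : ℕ) : List (ℕ × ℕ) := if E a b then [(a, b)] else []

theorem mem_ed {E : ℕ → ℕ → Prop} {a b : ℕ} {e : ℕ × ℕ} :
    e ∈ ed E a b ↔ e.1 = a ∧ e.2 = b ∧ E a b := by
  unfold ed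
  split_ifs with h
  · rw [List.mem_singleton, Prod.ext_iff]
    constructor
    · rintro ⟨h1, h2⟩; exact ⟨h1, h2, h⟩
    · rintro ⟨h1, h2, _⟩; exact ⟨h1, h2⟩
  · simp [h]

theorem nodup_ed (E : ℕ → ℕ → Prop) (a b : ℕ) : (ed E a b).Nodup := by
  unfold ed
  split_ifs <;> simp

theorem nodup_app {L L' : List (ℕ × ℕ)} (h : L.Nodup) (h' : L'.Nodup)
    (hd : ∀ e ∈ L, e ∈ L' → False) : (L ++ L').Nodup :=
  List.Nodup.append h h' (fun e he he' => hd e he he')

theorem vs_append (a b : List Ev) : vs (a ++ b) = vs a ++ vs b := by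
  simp [vs]

theorem cr_append (e : ℕ × ℕ) (a b : List Ev) : cr e (a ++ b) = cr e a + cr e b := by
  simp [cr]

theorem vs_swap (A B : List (ℕ × ℕ)) : vs [Ev.swap A B] = [] := by simp [vs, vE]

theorem vs_vert (v : ℕ) (A B : List (ℕ × ℕ)) : vs [Ev.vert v A B] = [v] := by simp [vs, vE]

theorem cr_swap (e : ℕ × ℕ) (A B : List (ℕ × ℕ)) :
    cr e [Ev.swap A B] = A.count e * B.length + B.count e * A.length := by simp [cr, crE]

theorem cr_vert (e : ℕ × ℕ) (v : ℕ) (A B : List (ℕ × ℕ)) : cr e [Ev.vert v A B] = 0 := by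
  simp [cr, crE]

/-- the new crossings -/
theorem bound {E : ℕ → ℕ → Prop} {Δ x y w : ℕ} {I O β : List (ℕ × ℕ)} (hβ : β.length ≤ Δ)
    (hIO : (I ++ O).length ≤ Δ) (hnd : (I ++ O ++ β).Nodup)
    (hin : ∀ e ∈ I ++ O ++ β, 1 ≤ ind3 x y w e.1 + ind3 x y w e.2) (e : ℕ × ℕ) :
    cr e [Ev.swap I β] + cr e [Ev.swap β O] ≤ Δ * (ind3 x y w e.1 + ind3 x y w e.2) := by
  rw [cr_swap, cr_swap]
  rw [List.length_append] at hIO
  have h1 : (I ++ O ++ β).count e ≤ 1 := List.nodup_iff_count_le_one.1 hnd e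
  rw [List.count_append, List.count_append] at h1
  have h2 : I.count e * β.length + β.count e * I.length + (β.count e * O.length +
      O.count e * β.length) ≤ (I.count e + O.count e + β.count e) * Δ := by
    have a1 := Nat.mul_le_mul_left (I.count e) hβ
    have a2 := Nat.mul_le_mul_left (O.count e) hβ
    have a3 := Nat.mul_le_mul_left (β.count e) hIO
    have a4 : β.count e * (I.length + O.length) = β.count e * I.length + β.count e * O.length :=
      Nat.mul_add _ _ _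
    have a5 : (I.count e + O.count e + β.count e) * Δ =
      I.count e * Δ + O.count e * Δ + β.count e * Δ := by ring
    omega
  refine h2.trans ?_
  rw [Nat.mul_comm Δ]
  apply Nat.mul_le_mul_right
  by_cases he : e ∈ I ++ O ++ β
  · exact h1.trans (hin e he)
  · have := List.count_eq_zero_of_not_mem he
    rw [List.count_append, List.count_append] at this
    omega

theorem combA : S_COMBA := by
  intro E Δ x y w H₁ H₂ T₁ T₂ hΔ hC hwx hwy hG1 hG2
  obtain ⟨W1x, I1x, O1x, W1w, I1w, O1w, e1l, e1m, e1h, r1, r2, r3, i1x, o1x, i1w, o1w, ok1, nd1,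
    m1, c1⟩ := hG1
  obtain ⟨W2y, I2y, O2y, W2w, I2w, O2w, e2l, e2m, e2h, s1, s2, s3, i2y, o2y, i2w, o2w, ok2, nd2,
    m2, c2⟩ := hG2
  obtain ⟨xy, xw, yw, x1, x2, y1, y2, w1, w2, disj, irr, n1, n2, nw⟩ := hC
  have i1x' : ∀ e, e ∈ I1x ↔ e.1 ∈ H₁ ∧ e.2 = x ∧ E e.1 e.2 := i1x.2
  have o1x' : ∀ e, e ∈ O1x ↔ e.1 = x ∧ e.2 ∈ H₁ ∧ E e.1 e.2 := o1x.2
  have i1w' : ∀ e, e ∈ I1w ↔ e.1 ∈ H₁ ∧ e.2 = w ∧ E e.1 e.2 := i1w.2
  have o1w' : ∀ e, e ∈ O1w ↔ e.1 = w ∧ e.2 ∈ H₁ ∧ E e.1 e.2 := o1w.2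
  have i2y' : ∀ e, e ∈ I2y ↔ e.1 ∈ H₂ ∧ e.2 = y ∧ E e.1 e.2 := i2y.2
  have o2y' : ∀ e, e ∈ O2y ↔ e.1 = y ∧ e.2 ∈ H₂ ∧ E e.1 e.2 := o2y.2
  have i2w' : ∀ e, e ∈ I2w ↔ e.1 ∈ H₂ ∧ e.2 = w ∧ E e.1 e.2 := i2w.2
  have o2w' : ∀ e, e ∈ O2w ↔ e.1 = w ∧ e.2 ∈ H₂ ∧ E e.1 e.2 := o2w.2
  set β := I1w ++ ed E x w with hβ
  have mβ : ∀ e, e ∈ β ↔ (e.1 ∈ H₁ ∧ e.2 = w ∧ E e.1 e.2) ∨ (e.1 = x ∧ e.2 = w ∧ E x w) := by
    intro e
    rw [hβ, List.mem_append, i1w', mem_ed]
  have ndβ : β.Nodup := by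
    apply nodup_app i1w.1 (nodup_ed _ _ _)
    intro e he he'
    rw [i1w'] at he
    rw [mem_ed] at he'
    exact x1 (he'.1 ▸ he.1)
  have mH : ∀ v, v ∈ H₁ ∪ {w} ∪ H₂ ↔ (v ∈ H₁ ∨ v = w) ∨ v ∈ H₂ := by
    intro v
    simp only [mem_union, mem_singleton_iff]
  refine ⟨W1x, I1x, O1x ++ ed E x w, W1w ++ W2y ++ β, I2y, O2y ++ ed E y w, e1l,
    e1m ++ e2l ++ [Ev.swap I2y β],
    [Ev.swap β O2y] ++ e2m ++ [Ev.vert w (I2w ++ β ++ ed E y w) (O2w ++ O1w)] ++ e2h ++ e1h,
    r1, ?_, ?_, ?_, ?_, ?_, ?_, ?_, ?_, ?_, ?_⟩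
  · -- between `x` and `y`
    refine run_append (run_append (L' := W1w ++ β) ?_ (L'' := W1w ++ (W2y ++ I2y) ++ β) ?_) ?_
    · exact run_cast (run_frame r2 [] (ed E x w)) (by simp) (by simp [hβ])
    · exact run_cast (run_frame s1 W1w β) (by simp) rfl
    · exact run_cast (Run.swap (W1w ++ W2y) I2y β [] (Run.nil _)) (by simp) (by simp)
  · -- above `y`
    refine run_append (run_append (run_append (run_append
      (L' := W1w ++ (W2y ++ O2y) ++ (β ++ ed E y w)) ?_
      (L'' := W1w ++ (W2w ++ I2w) ++ (β ++ ed E y w)) ?_)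
      (L'' := W1w ++ (W2w ++ O2w) ++ O1w) ?_) (L'' := W1w ++ O1w) ?_) r3
    · exact run_cast (Run.swap (W1w ++ W2y) β O2y (ed E y w) (Run.nil _)) (by simp) (by simp)
    · exact run_frame s2 W1w (β ++ ed E y w)
    · exact run_cast (Run.vert (W1w ++ W2w) (I2w ++ β ++ ed E y w) w (O2w ++ O1w) [] (Run.nil _))
        (by simp) (by simp)
    · exact run_cast (run_frame s3 W1w O1w) rfl (by simp)
  · -- `Ix`
    refine ⟨i1x.1, fun e => ?_⟩
    rw [i1x', mem_setOf_eq, mH]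
    constructor
    · rintro ⟨h1, h2, h3⟩
      exact ⟨Or.inl (Or.inl h1), h2, h3⟩
    · rintro ⟨(h1 | h1) | h1, h2, h3⟩
      · exact ⟨h1, h2, h3⟩
      · rw [h1, h2] at h3
        exact absurd h3 hwx
      · rcases n2 _ h1 _ (Or.inl h3) with h4 | h4 | h4
        · exact absurd (h2 ▸ h4) x2
        · exact absurd (h2.symm.trans h4) xw
        · exact absurd (h2.symm.trans h4) xy
  · -- `Ox`
    refine ⟨nodup_app o1x.1 (nodup_ed _ _ _) ?_, fun e => ?_⟩
    · intro e he he'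
      rw [o1x'] at he
      rw [mem_ed] at he'
      exact w1 (he'.2.1 ▸ he.2.1)
    · rw [List.mem_append, o1x', mem_ed, mem_setOf_eq, mH]
      constructor
      · rintro (⟨h1, h2, h3⟩ | ⟨h1, h2, h3⟩)
        · exact ⟨h1, Or.inl (Or.inl h2), h3⟩
        · exact ⟨h1, Or.inl (Or.inr h2), by rw [h1, h2]; exact h3⟩
      · rintro ⟨h1, (h2 | h2) | h2, h3⟩
        · exact Or.inl ⟨h1, h2, h3⟩
        · rw [h1, h2] at h3
          exact Or.inr ⟨h1, h2, h3⟩
        · rcases n2 _ h2 _ (Or.inr h3) with h4 | h4 | h4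
          · exact absurd (h1 ▸ h4) x2
          · exact absurd (h1.symm.trans h4) xw
          · exact absurd (h1.symm.trans h4) xy
  · -- `Iy`
    refine ⟨i2y.1, fun e => ?_⟩
    rw [i2y', mem_setOf_eq, mH]
    constructor
    · rintro ⟨h1, h2, h3⟩
      exact ⟨Or.inr h1, h2, h3⟩
    · rintro ⟨(h1 | h1) | h1, h2, h3⟩
      · rcases n1 _ h1 _ (Or.inl h3) with h4 | h4 | h4
        · exact absurd (h2 ▸ h4) y1
        · exact absurd (h2.symm.trans h4) (Ne.symm xy)
        · exact absurd (h2.symm.trans h4) yw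
      · rw [h1, h2] at h3
        exact absurd h3 hwy
      · exact ⟨h1, h2, h3⟩
  · -- `Oy`
    refine ⟨nodup_app o2y.1 (nodup_ed _ _ _) ?_, fun e => ?_⟩
    · intro e he he'
      rw [o2y'] at he
      rw [mem_ed] at he'
      exact w2 (he'.2.1 ▸ he.2.1)
    · rw [List.mem_append, o2y', mem_ed, mem_setOf_eq, mH]
      constructor
      · rintro (⟨h1, h2, h3⟩ | ⟨h1, h2, h3⟩)
        · exact ⟨h1, Or.inr h2, h3⟩
        · exact ⟨h1, Or.inl (Or.inr h2), by rw [h1, h2]; exact h3⟩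
      · rintro ⟨h1, (h2 | h2) | h2, h3⟩
        · rcases n1 _ h2 _ (Or.inr h3) with h4 | h4 | h4
          · exact absurd (h1 ▸ h4) y1
          · exact absurd (h1.symm.trans h4) (Ne.symm xy)
          · exact absurd (h1.symm.trans h4) yw
        · rw [h1, h2] at h3
          exact Or.inr ⟨h1, h2, h3⟩
        · exact Or.inl ⟨h1, h2, h3⟩
  · -- OKE
    have hw : OKE E (Ev.vert w (I2w ++ β ++ ed E y w) (O2w ++ O1w)) := by
      refine ⟨⟨?_, fun e => ?_⟩, ⟨?_, fun e => ?_⟩⟩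
      · apply nodup_app (nodup_app i2w.1 ndβ _) (nodup_ed _ _ _)
        · intro e he he'
          rw [List.mem_append, i2w', mβ] at he
          rw [mem_ed] at he'
          rcases he with h | h | h
          · exact y2 (he'.1 ▸ h.1)
          · exact y1 (he'.1 ▸ h.1)
          · exact xy (h.1.symm.trans he'.1)
        · intro e he he'
          rw [i2w'] at he
          rw [mβ] at he'
          rcases he' with h | h
          · exact disj _ h.1 he.1
          · exact x2 (h.1 ▸ he.1)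
      · rw [List.mem_append, List.mem_append, i2w', mβ, mem_ed, mem_setOf_eq]
        constructor
        · rintro ((⟨h1, h2, h3⟩ | ⟨h1, h2, h3⟩ | ⟨h1, h2, h3⟩) | ⟨h1, h2, h3⟩)
          · exact ⟨h2, h2 ▸ h3⟩
          · exact ⟨h2, h2 ▸ h3⟩
          · exact ⟨h2, h1 ▸ h3⟩
          · exact ⟨h2, h1 ▸ h3⟩
        · rintro ⟨h1, h2⟩
          rcases nw _ (Or.inr h2) with h | h | h | h
          · exact Or.inl (Or.inr (Or.inl ⟨h, h1, h1 ▸ h2⟩))
          · exact Or.inl (Or.inl ⟨h, h1, h1 ▸ h2⟩)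
          · exact Or.inl (Or.inr (Or.inr ⟨h, h1, h ▸ h2⟩))
          · exact Or.inr ⟨h, h1, h ▸ h2⟩
      · apply nodup_app o2w.1 o1w.1
        intro e he he'
        rw [o2w'] at he
        rw [o1w'] at he'
        exact disj _ he'.2.1 he.2.1
      · rw [List.mem_append, o2w', o1w', mem_setOf_eq]
        constructor
        · rintro (⟨h1, h2, h3⟩ | ⟨h1, h2, h3⟩)
          · exact ⟨h1, h1 ▸ h3⟩
          · exact ⟨h1, h1 ▸ h3⟩
        · rintro ⟨h1, h2⟩
          rcases nw _ (Or.inl h2) with h | h | h | h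
          · exact Or.inr ⟨h1, h, h1.symm ▸ h2⟩
          · exact Or.inl ⟨h1, h, h1.symm ▸ h2⟩
          · exact absurd (h ▸ h2) hwx
          · exact absurd (h ▸ h2) hwy
    intro ev hev
    simp only [List.mem_append, List.mem_singleton] at hev ok1 ok2
    rcases hev with (h | (h | h) | h) | ((((h | h) | h) | h) | h)
    · exact ok1 ev (Or.inl (Or.inl h))
    · exact ok1 ev (Or.inl (Or.inr h))
    · exact ok2 ev (Or.inl (Or.inl h))
    · rw [h]; trivial
    · rw [h]; trivial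
    · exact ok2 ev (Or.inl (Or.inr h))
    · rw [h]; exact hw
    · exact ok2 ev (Or.inr h)
    · exact ok1 ev (Or.inr h)
  · -- nodup
    have hperm : (vs (e1l ++ (e1m ++ e2l ++ [Ev.swap I2y β]) ++
        ([Ev.swap β O2y] ++ e2m ++ [Ev.vert w (I2w ++ β ++ ed E y w) (O2w ++ O1w)] ++ e2h ++
          e1h))).Perm (vs (e1l ++ e1m ++ e1h) ++ vs (e2l ++ e2m ++ e2h) ++ [w]) := by
      simp only [vs_append, vs_swap, vs_vert, List.append_nil, List.nil_append]
      rw [← Multiset.coe_eq_coe]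
      simp only [← Multiset.coe_add]
      abel
    rw [hperm.nodup_iff]
    refine List.Nodup.append (List.Nodup.append nd1 nd2 ?_) (List.nodup_singleton w) ?_
    · intro v h1 h2
      exact disj v ((m1 v).1 h1) ((m2 v).1 h2)
    · intro v h1 h2
      rw [List.mem_singleton] at h2
      rw [List.mem_append, m1, m2, h2] at h1
      exact h1.elim w1 w2
  · -- membership
    intro v
    rw [mH, ← m1, ← m2]
    simp only [vs_append, vs_swap, vs_vert, List.mem_append, List.mem_singleton, List.not_mem_nil]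
    tauto
  · -- crossings
    intro e
    have hb := bound (E := E) (x := x) (y := y) (w := w) (I := I2y) (O := O2y) (β := β) (Δ := Δ)
      (hΔ w β ndβ (by
        intro e he
        rw [mβ] at he
        rcases he with h | h
        · exact ⟨Or.inr h.2.1, h.2.2⟩
        · exact ⟨Or.inr h.2.1, by rw [h.1, h.2.1]; exact h.2.2⟩))
      (hΔ y (I2y ++ O2y) (nodup_app i2y.1 o2y.1 (by
        intro e he he'
        rw [i2y'] at he
        rw [o2y'] at he'
        exact y2 (he'.1 ▸ he.1))) (by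
        intro e he
        rw [List.mem_append, i2y', o2y'] at he
        rcases he with h | h
        · exact ⟨Or.inr h.2.1, h.2.2⟩
        · exact ⟨Or.inl h.1, h.2.2⟩))
      (nodup_app (nodup_app i2y.1 o2y.1 (by
        intro e he he'
        rw [i2y'] at he
        rw [o2y'] at he'
        exact y2 (he'.1 ▸ he.1))) ndβ (by
        intro e he he'
        rw [List.mem_append, i2y', o2y'] at he
        rw [mβ] at he'
        rcases he with h | h <;> rcases he' with h' | h'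
        · exact yw (h.2.1.symm.trans h'.2.1)
        · exact yw (h.2.1.symm.trans h'.2.1)
        · exact y1 (h.1 ▸ h'.1)
        · exact xy (h'.1.symm.trans h.1)))
      (by
        intro e he
        simp only [List.mem_append, i2y', o2y', mβ] at he
        unfold ind3
        rcases he with (h | h) | h | h
        · rw [if_pos (Or.inr (Or.inl h.2.1) : e.2 = x ∨ e.2 = y ∨ e.2 = w)]; omega
        · rw [if_pos (Or.inr (Or.inl h.1) : e.1 = x ∨ e.1 = y ∨ e.1 = w)]; omega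
        · rw [if_pos (Or.inr (Or.inr h.2.1) : e.2 = x ∨ e.2 = y ∨ e.2 = w)]; omega
        · rw [if_pos (Or.inr (Or.inr h.2.1) : e.2 = x ∨ e.2 = y ∨ e.2 = w)]; omega) e
    have h1 := c1 e
    have h2 := c2 e
    simp only [cr_append] at h1 h2 ⊢
    rw [cr_vert]
    have h3 : Δ * (T₁ e.1 + T₂ e.1 + ind3 x y w e.1 + (T₁ e.2 + T₂ e.2 + ind3 x y w e.2)) =
        Δ * (T₁ e.1 + T₁ e.2) + Δ * (T₂ e.1 + T₂ e.2) +
          Δ * (ind3 x y w e.1 + ind3 x y w e.2) := by ring
    show _ ≤ Δ * (T₁ e.1 + T₂ e.1 + ind3 x y w e.1 + (T₁ e.2 + T₂ e.2 + ind3 x y w e.2))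
    rw [h3]
    omega

end Pool.UL.H54
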