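import Pool.Agent.Helper54.UL.CombA

/-! UL part COMBB. -/

open Set

namespace Pool.UL.H54

open Classical

theorem combB : S_COMBB := by
  intro E Δ x y w H₁ H₂ T₁ T₂ hΔ hC hxw hyw hG1 hG2
  obtain ⟨W1w, I1w, O1w, W1x, I1x, O1x, e1l, e1m, e1h, r1, r2, r3, i1w, o1w, i1x, o1x, ok1, nd1,
    m1, c1⟩ := hG1
  obtain ⟨W2w, I2w, O2w, W2y, I2y, O2y, e2l, e2m, e2h, s1, s2, s3, i2w, o2w, i2y, o2y, ok2, nd2,
    m2, c2⟩ := hG2
  obtain ⟨xy, xw, yw, x1, x2, y1, y2, w1, w2, disj, irr, n1, n2, nw⟩ := hC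
  have i1x' : ∀ e, e ∈ I1x ↔ e.1 ∈ H₁ ∧ e.2 = x ∧ E e.1 e.2 := i1x.2
  have o1x' : ∀ e, e ∈ O1x ↔ e.1 = x ∧ e.2 ∈ H₁ ∧ E e.1 e.2 := o1x.2
  have i1w' : ∀ e, e ∈ I1w ↔ e.1 ∈ H₁ ∧ e.2 = w ∧ E e.1 e.2 := i1w.2
  have o1w' : ∀ e, e ∈ O1w ↔ e.1 = w ∧ e.2 ∈ H₁ ∧ E e.1 e.2 := o1w.2
  have i2y' : ∀ e, e ∈ I2y ↔ e.1 ∈ H₂ ∧ e.2 = y ∧ E e.1 e.2 := i2y.2
  have o2y' : ∀ e, e ∈ O2y ↔ e.1 = y ∧ e.2 ∈ H₂ ∧ E e.1 e.2 := o2y.2
  have i2w' : ∀ e, e ∈ I2w ↔ e.1 ∈ H₂ ∧ e.2 = w ∧ E e.1 e.2 := i2w.2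
  have o2w' : ∀ e, e ∈ O2w ↔ e.1 = w ∧ e.2 ∈ H₂ ∧ E e.1 e.2 := o2w.2
  set β := O2w ++ ed E w y with hβ
  have mβ : ∀ e, e ∈ β ↔ (e.1 = w ∧ e.2 ∈ H₂ ∧ E e.1 e.2) ∨ (e.1 = w ∧ e.2 = y ∧ E w y) := by
    intro e
    rw [hβ, List.mem_append, o2w', mem_ed]
  have ndβ : β.Nodup := by
    apply nodup_app o2w.1 (nodup_ed _ _ _)
    intro e he he'
    rw [o2w'] at he
    rw [mem_ed] at he'
    exact y2 (he'.2.1 ▸ he.2.1)
  have mH : ∀ v, v ∈ H₁ ∪ {w} ∪ H₂ ↔ (v ∈ H₁ ∨ v = w) ∨ v ∈ H₂ := by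
    intro v
    simp only [mem_union, mem_singleton_iff]
  refine ⟨W2w ++ W1x ++ β, I1x ++ ed E w x, O1x, W2y, I2y ++ ed E w y, O2y,
    e2l ++ e1l ++ [Ev.vert w (I1w ++ I2w) (O1w ++ β ++ ed E w x)] ++ e1m ++ [Ev.swap I1x β],
    [Ev.swap β O1x] ++ e1h ++ e2m, e2h,
    ?_, ?_, s3, ?_, ?_, ?_, ?_, ?_, ?_, ?_, ?_⟩
  · -- below `x`
    refine run_append (run_append (run_append (run_append s1
      (L'' := W2w ++ (W1w ++ I1w) ++ I2w) ?_)
      (L'' := W2w ++ (W1w ++ O1w) ++ (β ++ ed E w x)) ?_)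
      (L'' := W2w ++ (W1x ++ I1x) ++ (β ++ ed E w x)) ?_) ?_
    · exact run_cast (run_frame r1 W2w I2w) (by simp) rfl
    · exact run_cast (Run.vert (W2w ++ W1w) (I1w ++ I2w) w (O1w ++ β ++ ed E w x) [] (Run.nil _))
        (by simp) (by simp)
    · exact run_frame r2 W2w (β ++ ed E w x)
    · exact run_cast (Run.swap (W2w ++ W1x) I1x β (ed E w x) (Run.nil _)) (by simp) (by simp)
  · -- between `x` and `y`
    refine run_append (run_append (L' := W2w ++ (W1x ++ O1x) ++ β) ?_ (L'' := W2w ++ β) ?_) ?_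
    · exact run_cast (Run.swap (W2w ++ W1x) β O1x [] (Run.nil _)) (by simp) (by simp)
    · exact run_cast (run_frame r3 W2w β) rfl (by simp)
    · exact run_cast (run_frame s2 [] (ed E w y)) (by simp [hβ]) (by simp)
  · -- `Ix`
    refine ⟨nodup_app i1x.1 (nodup_ed _ _ _) ?_, fun e => ?_⟩
    · intro e he he'
      rw [i1x'] at he
      rw [mem_ed] at he'
      exact w1 (he'.1 ▸ he.1)
    · rw [List.mem_append, i1x', mem_ed, mem_setOf_eq, mH]
      constructor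
      · rintro (⟨h1, h2, h3⟩ | ⟨h1, h2, h3⟩)
        · exact ⟨Or.inl (Or.inl h1), h2, h3⟩
        · exact ⟨Or.inl (Or.inr h1), h2, by rw [h1, h2]; exact h3⟩
      · rintro ⟨(h1 | h1) | h1, h2, h3⟩
        · exact Or.inl ⟨h1, h2, h3⟩
        · rw [h1, h2] at h3
          exact Or.inr ⟨h1, h2, h3⟩
        · rcases n2 _ h1 _ (Or.inl h3) with h4 | h4 | h4
          · exact absurd (h2 ▸ h4) x2
          · exact absurd (h2.symm.trans h4) xw
          · exact absurd (h2.symm.trans h4) xy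
  · -- `Ox`
    refine ⟨o1x.1, fun e => ?_⟩
    rw [o1x', mem_setOf_eq, mH]
    constructor
    · rintro ⟨h1, h2, h3⟩
      exact ⟨h1, Or.inl (Or.inl h2), h3⟩
    · rintro ⟨h1, (h2 | h2) | h2, h3⟩
      · exact ⟨h1, h2, h3⟩
      · rw [h1, h2] at h3
        exact absurd h3 hxw
      · rcases n2 _ h2 _ (Or.inr h3) with h4 | h4 | h4
        · exact absurd (h1 ▸ h4) x2
        · exact absurd (h1.symm.trans h4) xw
        · exact absurd (h1.symm.trans h4) xy
  · -- `Iy`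
    refine ⟨nodup_app i2y.1 (nodup_ed _ _ _) ?_, fun e => ?_⟩
    · intro e he he'
      rw [i2y'] at he
      rw [mem_ed] at he'
      exact w2 (he'.1 ▸ he.1)
    · rw [List.mem_append, i2y', mem_ed, mem_setOf_eq, mH]
      constructor
      · rintro (⟨h1, h2, h3⟩ | ⟨h1, h2, h3⟩)
        · exact ⟨Or.inr h1, h2, h3⟩
        · exact ⟨Or.inl (Or.inr h1), h2, by rw [h1, h2]; exact h3⟩
      · rintro ⟨(h1 | h1) | h1, h2, h3⟩
        · rcases n1 _ h1 _ (Or.inl h3) with h4 | h4 | h4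
          · exact absurd (h2 ▸ h4) y1
          · exact absurd (h2.symm.trans h4) (Ne.symm xy)
          · exact absurd (h2.symm.trans h4) yw
        · rw [h1, h2] at h3
          exact Or.inr ⟨h1, h2, h3⟩
        · exact Or.inl ⟨h1, h2, h3⟩
  · -- `Oy`
    refine ⟨o2y.1, fun e => ?_⟩
    rw [o2y', mem_setOf_eq, mH]
    constructor
    · rintro ⟨h1, h2, h3⟩
      exact ⟨h1, Or.inr h2, h3⟩
    · rintro ⟨h1, (h2 | h2) | h2, h3⟩
      · rcases n1 _ h2 _ (Or.inr h3) with h4 | h4 | h4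
        · exact absurd (h1 ▸ h4) y1
        · exact absurd (h1.symm.trans h4) (Ne.symm xy)
        · exact absurd (h1.symm.trans h4) yw
      · rw [h1, h2] at h3
        exact absurd h3 hyw
      · exact ⟨h1, h2, h3⟩
  · -- OKE
    have hw : OKE E (Ev.vert w (I1w ++ I2w) (O1w ++ β ++ ed E w x)) := by
      refine ⟨⟨?_, fun e => ?_⟩, ⟨?_, fun e => ?_⟩⟩
      · apply nodup_app i1w.1 i2w.1
        intro e he he'
        rw [i1w'] at he
        rw [i2w'] at he'
        exact disj _ he.1 he'.1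
      · rw [List.mem_append, i1w', i2w', mem_setOf_eq]
        constructor
        · rintro (⟨h1, h2, h3⟩ | ⟨h1, h2, h3⟩)
          · exact ⟨h2, h2 ▸ h3⟩
          · exact ⟨h2, h2 ▸ h3⟩
        · rintro ⟨h1, h2⟩
          rcases nw _ (Or.inr h2) with h | h | h | h
          · exact Or.inl ⟨h, h1, h1 ▸ h2⟩
          · exact Or.inr ⟨h, h1, h1 ▸ h2⟩
          · exact absurd (h ▸ h2) hxw
          · exact absurd (h ▸ h2) hyw
      · apply nodup_app (nodup_app o1w.1 ndβ _) (nodup_ed _ _ _)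
        · intro e he he'
          rw [List.mem_append, o1w', mβ] at he
          rw [mem_ed] at he'
          rcases he with h | h | h
          · exact x1 (he'.2.1 ▸ h.2.1)
          · exact x2 (he'.2.1 ▸ h.2.1)
          · exact xy (he'.2.1.symm.trans h.2.1)
        · intro e he he'
          rw [o1w'] at he
          rw [mβ] at he'
          rcases he' with h | h
          · exact disj _ he.2.1 h.2.1
          · exact y1 (h.2.1 ▸ he.2.1)
      · rw [List.mem_append, List.mem_append, o1w', mβ, mem_ed, mem_setOf_eq]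
        constructor
        · rintro ((⟨h1, h2, h3⟩ | ⟨h1, h2, h3⟩ | ⟨h1, h2, h3⟩) | ⟨h1, h2, h3⟩)
          · exact ⟨h1, h1 ▸ h3⟩
          · exact ⟨h1, h1 ▸ h3⟩
          · exact ⟨h1, h2.symm ▸ h3⟩
          · exact ⟨h1, h2.symm ▸ h3⟩
        · rintro ⟨h1, h2⟩
          rcases nw _ (Or.inl h2) with h | h | h | h
          · exact Or.inl (Or.inl ⟨h1, h, h1.symm ▸ h2⟩)
          · exact Or.inl (Or.inr (Or.inl ⟨h1, h, h1.symm ▸ h2⟩))
          · exact Or.inr ⟨h1, h, h ▸ h2⟩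
          · exact Or.inl (Or.inr (Or.inr ⟨h1, h, h ▸ h2⟩))
    intro ev hev
    simp only [List.mem_append, List.mem_singleton] at hev ok1 ok2
    rcases hev with (((((h | h) | h) | h) | h) | ((h | h) | h)) | h
    · exact ok2 ev (Or.inl (Or.inl h))
    · exact ok1 ev (Or.inl (Or.inl h))
    · rw [h]; exact hw
    · exact ok1 ev (Or.inl (Or.inr h))
    · rw [h]; trivial
    · rw [h]; trivial
    · exact ok1 ev (Or.inr h)
    · exact ok2 ev (Or.inl (Or.inr h))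
    · exact ok2 ev (Or.inr h)
  · -- nodup
    have hperm : (vs ((e2l ++ e1l ++ [Ev.vert w (I1w ++ I2w) (O1w ++ β ++ ed E w x)] ++ e1m ++
        [Ev.swap I1x β]) ++ ([Ev.swap β O1x] ++ e1h ++ e2m) ++ e2h)).Perm
          (vs (e1l ++ e1m ++ e1h) ++ vs (e2l ++ e2m ++ e2h) ++ [w]) := by
      simp only [vs_append, vs_swap, vs_vert, List.append_nil, List.nil_append]
      rw [← Multiset.coe_eq_coe]
      simp only [← Multiset.coe_add]
      abel
    rw [hperm.nodup_iff]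
    refine List.Nodup.append (List.Nodup.append nd1 nd2 ?_) (List.nodup_singleton w) ?_
    · intro v h1 h2
      exact disj v ((m1 v).1 h1) ((m2 v).1 h2)
    · intro v h1 h2
      rw [List.mem_singleton] at h2
      rw [List.mem_append, m1, m2, h2] at h1
      exact h1.elim w1 w2
  · -- membership
    intro v
    rw [mH, ← m1, ← m2]
    simp only [vs_append, vs_swap, vs_vert, List.mem_append, List.mem_singleton, List.not_mem_nil]
    tauto
  · -- crossings
    intro e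
    have hb := bound (E := E) (x := x) (y := y) (w := w) (I := I1x) (O := O1x) (β := β) (Δ := Δ)
      (hΔ w β ndβ (by
        intro e he
        rw [mβ] at he
        rcases he with h | h
        · exact ⟨Or.inl h.1, h.2.2⟩
        · exact ⟨Or.inl h.1, by rw [h.1, h.2.1]; exact h.2.2⟩))
      (hΔ x (I1x ++ O1x) (nodup_app i1x.1 o1x.1 (by
        intro e he he'
        rw [i1x'] at he
        rw [o1x'] at he'
        exact x1 (he'.1 ▸ he.1))) (by
        intro e he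
        rw [List.mem_append, i1x', o1x'] at he
        rcases he with h | h
        · exact ⟨Or.inr h.2.1, h.2.2⟩
        · exact ⟨Or.inl h.1, h.2.2⟩))
      (nodup_app (nodup_app i1x.1 o1x.1 (by
        intro e he he'
        rw [i1x'] at he
        rw [o1x'] at he'
        exact x1 (he'.1 ▸ he.1))) ndβ (by
        intro e he he'
        rw [List.mem_append, i1x', o1x'] at he
        rw [mβ] at he'
        rcases he with h | h <;> rcases he' with h' | h'
        · exact w1 (h'.1 ▸ h.1)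
        · exact w1 (h'.1 ▸ h.1)
        · exact xw (h.1.symm.trans h'.1)
        · exact xw (h.1.symm.trans h'.1)))
      (by
        intro e he
        simp only [List.mem_append, i1x', o1x', mβ] at he
        unfold ind3
        rcases he with (h | h) | h | h
        · rw [if_pos (Or.inl h.2.1 : e.2 = x ∨ e.2 = y ∨ e.2 = w)]; omega
        · rw [if_pos (Or.inl h.1 : e.1 = x ∨ e.1 = y ∨ e.1 = w)]; omega
        · rw [if_pos (Or.inr (Or.inr h.1) : e.1 = x ∨ e.1 = y ∨ e.1 = w)]; omega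
        · rw [if_pos (Or.inr (Or.inr h.1) : e.1 = x ∨ e.1 = y ∨ e.1 = w)]; omega) e
    have h1 := c1 e
    have h2 := c2 e
    simp only [cr_append] at h1 h2 ⊢
    rw [cr_vert]
    have h3 : Δ * (T₁ e.1 + T₂ e.1 + ind3 x y w e.1 + (T₁ e.2 + T₂ e.2 + ind3 x y w e.2)) =
        Δ * (T₁ e.1 + T₁ e.2) + Δ * (T₂ e.1 + T₂ e.2) +
          Δ * (ind3 x y w e.1 + ind3 x y w e.2) := by ring
    show _ ≤ Δ * (T₁ e.1 + T₂ e.1 + ind3 x y w e.1 + (T₁ e.2 + T₂ e.2 + ind3 x y w e.2))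
    rw [h3]
    omega

end Pool.UL.H54
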